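import Pool.Agent.V1138.BO.Many
import Pool.Agent.V1138.BO.Eis
import Pool.Agent.Y152.RP.Tor

/-!
# MP_c95b3b_ag: Zilber's conjecture for all but finitely many members with parameters in a backward
orbit of one-parameter families of subvarieties of tori

**Families.** Let `A_1, …, A_m ⊂ ℤ^n` be arbitrary finite nonempty sets of exponents, `K ⊂ ℂ` a
field, and let `c_jβ ∈ K[t]` be nonzero polynomials, `β ∈ A_j`. For `t ∈ ℂ` let
`X_t ⊂ (ℂ^×)^n` be the algebraic set defined by the Laurent polynomials
`f_j = ∑_β c_jβ(t) x^β`, `j ≤ m` (`member`). Every one-parameter family of subvarieties of the torus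
is of this form.

**Tropicalization.** For a rational number `α` the tropicalization of the family at `t = α` is the set
`Trop_α` of the `w ∈ ℚ^n` such that for all `j` the minimum of the numbers
`ord_α (c_jβ) + β · w`, `β ∈ A_j`, is attained at least twice.

**Parameters.** Let `φ_1, …, φ_r` and `g` be polynomials with integral coefficients such that all the
composites `g ∘ φ_{i_1} ∘ … ∘ φ_{i_m}` are irreducible, and `deg g · deg φ_i ≥ 2` for all `i`. The
backward orbit of the roots of `g` is the set of the complex numbers `t` with
`g (φ_{i_1} (… (φ_{i_m} (t)))) = 0` for some word `i_1 … i_m` (`InBackwardOrbit`). For `r = 1` and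
`g = X - β` these are the iterated preimages of `β` under a polynomial map. The composites are
irreducible for example (theorem `Pool.Agent.V1138.BO.eisenstein`) if `g = X - β` and the `φ_i` are
monic polynomials of degree at least two which are powers of `X` modulo a prime number `p`, with
`p ∣ β` and `p ^ 2 ∤ φ_i (0) - β`. These parameters are algebraic numbers of unbounded degree
(the degree is `deg g` times the product of the degrees of the `φ_{i_k}`) and, for `deg φ_i ≥ 2`, of
bounded height. A rational number `α` is called wandering if for every `y` there are only finitely
many words with `φ_{i_1} (… (φ_{i_m} (α))) = y` (for `r = 1`: `α` is not preperiodic).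

**Theorem.** Let `α_1, …, α_M`, `M ≥ N`, be wandering rational numbers, and suppose that no linear
subspace of `ℚ^n` of dimension less than `r` meets `N` of the sets `Trop_{α_l}`. Then for all but
finitely many `t` in the backward orbit
the set `X_t` has no atypical intersection with the torsion cosets, and more generally with the cosets
`η H` of all algebraic subgroups `H` of the torus by all points `η` whose coordinates are units of
the integral closure of `ℤ[Γ]` in `ℂ`, where `Γ` is any given finite subset of `K` (`Γ = ∅`:
`η` has coordinates which are algebraic units): every irreducible subset of `X_t ∩ η H` has dimension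
at most `dim H - r`. In particular (`H` the torus) all components of `X_t` have dimension at most
`n - r`, and `X_t` does not meet `η H` if `dim H < r`; so the set `U(Y)` of the problem is empty for
all components `Y` of `X_t` of dimension `n - r`.

The degree of `t` is unbounded. The general position condition
holds for almost all systems of orders; for complete intersections
`m = r` see `Pool.Agent.Y152.RP.Tor.general_position`. The families, the condition and the criterion
are those of the starting files `TropicallyGenericFamilies` (transcendental parameters `t`, and for
`N + 2 d ≤ M` algebraic parameters of degree at most `d`) and `RadicalMembers` (numbers `t` with a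
rational power, roots of unity).

**The arithmetic** (`Pool.Agent.V1138.BO`). If `α` is wandering then for all but finitely many words the
(homogenized) value at `α` of the minimal polynomial `g ∘ φ_{i_1} ∘ … ∘ φ_{i_m}` of the parameter
has a prime factor larger than a given number `D`. Up to powers of the denominator of `α` it is
`g_1 (y)` with `g_1 = g ∘ φ_{i_1}` and `y = φ_{i_2} (… (φ_{i_m} (α)))`, an `S`-integer, and by
the unit equation in the field generated by two roots of `g_1` there are only finitely many
`S`-integers `y` such that `g_1 (y)` is an `S`-unit.
-/

set_option autoImplicit false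

namespace Pool.Agent.Results.MP_c95b3b_ag.BackwardOrbits

open Pool.Agent.V1138.BO (cmp act)
open Pool.Agent.Y152.RP.Tor (member order Trop InGeneralPosition NoAtypical)

/-- `t` is in the backward orbit of the roots of `g` under the semigroup generated by the
polynomials `φ i`: `g (φ_{i_1} (… (φ_{i_m} (t)))) = 0` for some word `i_1 … i_m`. -/
def InBackwardOrbit {r : ℕ} (φ : Fin r → Polynomial ℤ) (g : Polynomial ℤ) (t : ℂ) : Prop :=
  ∃ w : List (Fin r), Polynomial.aeval (act φ w t) g = 0

/-- All composites `g ∘ φ_{i_1} ∘ … ∘ φ_{i_m}` are irreducible, and those with `m = 1` have degree at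
least two. -/
def IrreducibleComposites {r : ℕ} (φ : Fin r → Polynomial ℤ) (g : Polynomial ℤ) : Prop :=
  (∀ w : List (Fin r), Irreducible (cmp φ g w)) ∧ ∀ i, 2 ≤ g.natDegree * (φ i).natDegree

/-- Every number is the image of `α` for only finitely many words. -/
def Wandering {r : ℕ} (φ : Fin r → Polynomial ℤ) (α : ℚ) : Prop :=
  ∀ y : ℚ, {w : List (Fin r) | act φ w α = y}.Finite

/-- One-parameter families of subvarieties of the torus whose tropicalizations at sufficiently many
wandering rational parameters are in general position: only finitely many of the members with
parameters in the backward orbit have an atypical intersection. -/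
theorem result {n m M : ℕ} {K : Subfield ℂ} (r N : ℕ) (A : Fin m → Finset (Fin n → ℤ))
    (hA : ∀ j, (A j).Nonempty) (c : Fin m → (Fin n → ℤ) → Polynomial K)
    (hc : ∀ j, ∀ β ∈ A j, c j β ≠ 0) (α : Fin M → ℚ)
    (hgen : InGeneralPosition r N fun l => Trop A (order c (α l)))
    (Γ : Set ℂ) (hΓ : Γ.Finite) (hΓK : Γ ⊆ K) (hM : N ≤ M)
    (s : ℕ) (φ : Fin s → Polynomial ℤ) (g : Polynomial ℤ) (hφ : IrreducibleComposites φ g)
    (hα : ∀ l, Wandering φ (α l)) :
    {t : ℂ | InBackwardOrbit φ g t ∧ ¬ NoAtypical r Γ (member A c t)}.Finite :=
  Pool.Agent.Y152.RP.Tor.family r N A hA c hc α hgen Γ hΓ hΓK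
    {t : ℂ | InBackwardOrbit φ g t}
    fun D => Pool.Agent.V1138.BO.finite_badB D hM α φ g hφ.2 hφ.1 hα

end Pool.Agent.Results.MP_c95b3b_ag.BackwardOrbits
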