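import Pool.Agent.V1138.KR.Real
import Pool.Agent.Y152.RP.Tor

/-!
# MP_c95b3b_ag: Zilber's conjecture for all but finitely many members of one-parameter families of
subvarieties of tori, with values of a rational function at radicals as parameters

**Families.** Let `A_1, …, A_m ⊂ ℤ^n` be arbitrary finite nonempty sets of exponents, `K ⊂ ℂ` a
field, and let `c_jβ ∈ K[t]` be nonzero polynomials, `β ∈ A_j`. For `t ∈ ℂ` let
`X_t ⊂ (ℂ^×)^n` be the algebraic set defined by the Laurent polynomials
`f_j = ∑_β c_jβ(t) x^β`, `j ≤ m` (`member`). Every one-parameter family of subvarieties of the torus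
is of this form.

**Tropicalization.** For a rational number `α` the tropicalization of the family at `t = α` is the set
`Trop_α` of the `w ∈ ℚ^n` such that for all `j` the minimum of the numbers
`ord_α (c_jβ) + β · w`, `β ∈ A_j`, is attained at least twice.

**Parameters.** Let `Γ₀` be a finitely generated subgroup of `ℚ^×`. We call `ξ` a pure radical over
`Γ₀` if `ξ ^ N = γ` for some `N > 0` and some rational number `γ` which has a power in `Γ₀`, and `ξ`
has degree `N` over `ℚ` (`IsPureRadical`). For example all real numbers with a power in `Γ₀`, and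
their conjugates, are pure radicals (theorem `Pool.Agent.V1138.KR.pure_of_real`). Let `f = P / Q` be
a rational function, where `P` and `Q` are coprime polynomials with integral coefficients. The
parameters are the values `t = f (ξ)` of `f` at the pure radicals `ξ` over `Γ₀` (`IsRadicalValue`),
for example the numbers `2^(1/N) + 2^(-1/N)`, or `1 + 6^(k/N)`. These parameters are algebraic
numbers of unbounded degree and unbounded height. A rational number `α` is called independent if
`f (x) = α` for at least one `x ≠ 0` with no power in `Γ₀` (for `f = X`: no power of `α ≠ 0` is in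
`Γ₀`).

**Theorem.** Let `α_1, …, α_M`, `M ≥ N`, be independent rational numbers, and suppose that no linear
subspace of `ℚ^n` of dimension less than `r` meets `N` of the sets `Trop_{α_l}`. Then for all but
finitely many `t = f (ξ)` the set `X_t` has no atypical intersection with the torsion cosets, and
more generally with the cosets `η H` of all algebraic subgroups `H` of the torus by all points `η` whose coordinates are units of
the integral closure of `ℤ[Γ]` in `ℂ`, where `Γ` is any given finite subset of `K` (`Γ = ∅`:
`η` has coordinates which are algebraic units): every irreducible subset of `X_t ∩ η H` has dimension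
at most `dim H - r`. In particular (`H` the torus) all components of `X_t` have dimension at most
`n - r`, and `X_t` does not meet `η H` if `dim H < r`; so the set `U(Y)` of the problem is empty for
all components `Y` of `X_t` of dimension `n - r`.

The degree of `t` is unbounded. The general position condition
holds for almost all systems of orders; for complete intersections
`m = r` see `Pool.Agent.Y152.RP.Tor.general_position`. The families, the condition and the criterion
are those of the starting files `TropicallyGenericFamilies` (transcendental parameters `t`, and for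
`N + 2 d ≤ M` algebraic parameters of degree at most `d`) and `RadicalMembers` (numbers `t` with a
rational power, roots of unity).

**The arithmetic** (`Pool.Agent.V1138.KR`). If `α = u / v` is independent then for all but finitely
many parameters `t = f (ξ)` the (homogenized) value at `α` of the minimal polynomial of `t` has a
prime factor larger than a given number `D`. Otherwise the resultant of `u Q - v P` and the minimal
polynomial of `ξ`, `ξ ^ N = γ`, has only small prime factors, hence `β ^ N - γ` is an `S`-unit for
every zero `β` of `u Q - v P`, with a fixed finite set `S`. By the unit equation `β ^ N / γ` is one of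
finitely many numbers, and if no power of `β` is in `Γ₀` this number determines `N` and `γ`.
-/

set_option autoImplicit false

namespace Pool.Agent.Results.MP_c95b3b_ag.RadicalValues

open Pool.Agent.Y152.RP.Tor (member order Trop InGeneralPosition NoAtypical)

/-- `ξ ^ N = γ` for some `N > 0` and `γ ∈ ℚ^×` with a power in `Γ₀`, and `ξ` has degree `N`. -/
def IsPureRadical (Γ₀ : Subgroup ℚˣ) (ξ : ℂ) : Prop :=
  ∃ N : ℕ, 0 < N ∧ ∃ γ : ℚˣ, (∃ m : ℕ, 0 < m ∧ γ ^ m ∈ Γ₀) ∧ ξ ^ N = ((γ : ℚ) : ℂ) ∧
    N ≤ (minpoly ℚ ξ).natDegree

/-- `t` is the value of `P / Q` at a pure radical over `Γ₀`. -/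
def IsRadicalValue (Γ₀ : Subgroup ℚˣ) (P Q : Polynomial ℤ) (t : ℂ) : Prop :=
  ∃ ξ : ℂ, IsPureRadical Γ₀ ξ ∧ Polynomial.aeval ξ Q ≠ 0 ∧
    t = Polynomial.aeval ξ P / Polynomial.aeval ξ Q

/-- `P` and `Q` have no common factor over the rational numbers. -/
def NoCommonFactor (P Q : Polynomial ℤ) : Prop :=
  IsCoprime (P.map (Int.castRingHom ℚ)) (Q.map (Int.castRingHom ℚ))

/-- `P / Q` takes the value `α` at a nonzero number which has no power in `Γ₀`. -/
def Independent (Γ₀ : Subgroup ℚˣ) (P Q : Polynomial ℤ) (α : ℚ) : Prop :=
  ∃ x : ℂ, x ≠ 0 ∧ Polynomial.aeval x P = (α : ℂ) * Polynomial.aeval x Q ∧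
    ∀ m : ℕ, 0 < m → ∀ γ ∈ Γ₀, x ^ m ≠ ((γ : ℚ) : ℂ)

/-- One-parameter families of subvarieties of the torus whose tropicalizations at sufficiently many
independent rational parameters are in general position: only finitely many of the members with
parameters `P (ξ) / Q (ξ)` have an atypical intersection. -/
theorem result {n m M : ℕ} {K : Subfield ℂ} (r N : ℕ) (A : Fin m → Finset (Fin n → ℤ))
    (hA : ∀ j, (A j).Nonempty) (c : Fin m → (Fin n → ℤ) → Polynomial K)
    (hc : ∀ j, ∀ β ∈ A j, c j β ≠ 0) (α : Fin M → ℚ)
    (hgen : InGeneralPosition r N fun l => Trop A (order c (α l)))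
    (Γ : Set ℂ) (hΓ : Γ.Finite) (hΓK : Γ ⊆ K) (hM : N ≤ M)
    (Γ₀ : Subgroup ℚˣ) (hΓ₀ : Γ₀.FG)
    (P Q : Polynomial ℤ) (hPQ : NoCommonFactor P Q) (hα : ∀ l, Independent Γ₀ P Q (α l)) :
    {t : ℂ | IsRadicalValue Γ₀ P Q t ∧ ¬ NoAtypical r Γ (member A c t)}.Finite :=
  Pool.Agent.Y152.RP.Tor.family r N A hA c hc α hgen Γ hΓ hΓK
    {t : ℂ | IsRadicalValue Γ₀ P Q t}
    fun D => Pool.Agent.V1138.KR.finite_badK D hM α Γ₀ hΓ₀ P Q hPQ hα

end Pool.Agent.Results.MP_c95b3b_ag.RadicalValues
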