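import Pool.Agent.V1138.SP.Many
import Pool.Agent.Y152.RP.Tor

/-!
# MP_c95b3b_ag: Zilber's conjecture for all but finitely many members with parameters of sparse minimal
polynomial of one-parameter families of subvarieties of tori

**Families.** Let `A_1, …, A_m ⊂ ℤ^n` be arbitrary finite nonempty sets of exponents, `K ⊂ ℂ` a
field, and let `c_jβ ∈ K[t]` be nonzero polynomials, `β ∈ A_j`. For `t ∈ ℂ` let
`X_t ⊂ (ℂ^×)^n` be the algebraic set defined by the Laurent polynomials
`f_j = ∑_β c_jβ(t) x^β`, `j ≤ m` (`member`). Every one-parameter family of subvarieties of the torus
is of this form.

**Tropicalization.** For a rational number `α` the tropicalization of the family at `t = α` is the set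
`Trop_α` of the `w ∈ ℚ^n` such that for all `j` the minimum of the numbers
`ord_α (c_jβ) + β · w`, `β ∈ A_j`, is attained at least twice.

**Theorem.** Let `α_1, …, α_M` be distinct nonzero rational numbers, and suppose that no linear
subspace of `ℚ^n` of dimension less than `r` meets `N` of the sets `Trop_{α_l}`. If
`N + 6 s (s + 1) ≤ M` then for all but finitely many algebraic numbers `t` whose minimal polynomial
(the irreducible polynomial with integral coefficients with the root `t`) has at most `s + 1` terms,
the set `X_t` has no atypical intersection with the torsion cosets, and more generally with the cosets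
`η H` of all algebraic subgroups `H` of the torus by all points `η` whose coordinates are units of
the integral closure of `ℤ[Γ]` in `ℂ`, where `Γ` is any given finite subset of `K` (`Γ = ∅`:
`η` has coordinates which are algebraic units): every irreducible subset of `X_t ∩ η H` has dimension
at most `dim H - r`. In particular (`H` the torus) all components of `X_t` have dimension at most
`n - r`, and `X_t` does not meet `η H` if `dim H < r`; so the set `U(Y)` of the problem is empty for
all components `Y` of `X_t` of dimension `n - r`.

The degree of `t` and the coefficients of the minimal polynomial are arbitrary; for `s = 2` the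
parameters are all the roots of irreducible trinomials and binomials. The general position condition
holds for almost all systems of orders; for complete intersections
`m = r` see `Pool.Agent.Y152.RP.Tor.general_position`. The families, the condition and the criterion
are those of the starting files `TropicallyGenericFamilies` (transcendental parameters `t`, and for
`N + 2 d ≤ M` algebraic parameters of degree at most `d`) and `RadicalMembers` (numbers `t` with a
rational power). The numbers of degree at most `d` have minimal polynomials with at most `d + 1`
terms.

**The arithmetic** (`Pool.Agent.V1138.SP`). Let `α_1, …, α_C` be distinct positive rational numbers,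
`C = 3 s (s + 1) + 1`, and `D` a number. For all but finitely many `t ≠ 0` whose minimal polynomial
has `s + 1` terms its (homogenized) value at one of the `α_l` has a prime factor larger than `D`:
`t` is not `S`-integral relative to `α_1, …, α_C`. Here both the exponents and
the coefficients of the minimal polynomial vary. The proof works in a field of germs of sequences of
rational numbers, which is graded by the rates of growth of the exponents of `S`-units (subspace
theorem, `Pool.Agent.TH551.SU`); it uses Cramer's rule and the rule of signs of Descartes.
-/

set_option autoImplicit false

namespace Pool.Agent.Results.MP_c95b3b_ag.SparseMembers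

open Pool.Agent.Y152.RP.Tor (member order Trop InGeneralPosition NoAtypical)

/-- The minimal polynomial of `t` over the integers has at most `s + 1` terms. -/
def SparseMinimalPolynomial (s : ℕ) (t : ℂ) : Prop :=
  ∃ F : Polynomial ℤ, Irreducible F ∧ F.support.card ≤ s + 1 ∧ Polynomial.aeval t F = 0

/-- One-parameter families of subvarieties of the torus whose tropicalizations at sufficiently many
rational parameters are in general position: only finitely many of the members with parameters with
sparse minimal polynomial have an atypical intersection. -/
theorem result {n m M : ℕ} {K : Subfield ℂ} (r N : ℕ) (A : Fin m → Finset (Fin n → ℤ))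
    (hA : ∀ j, (A j).Nonempty) (c : Fin m → (Fin n → ℤ) → Polynomial K)
    (hc : ∀ j, ∀ β ∈ A j, c j β ≠ 0) (α : Fin M → ℚ) (hinj : Function.Injective α)
    (hα : ∀ l, α l ≠ 0) (hgen : InGeneralPosition r N fun l => Trop A (order c (α l)))
    (Γ : Set ℂ) (hΓ : Γ.Finite) (hΓK : Γ ⊆ K) (s : ℕ) (hM : N + 6 * s * (s + 1) ≤ M) :
    {t : ℂ | SparseMinimalPolynomial s t ∧ ¬ NoAtypical r Γ (member A c t)}.Finite :=
  Pool.Agent.Y152.RP.Tor.family r N A hA c hc α hgen Γ hΓ hΓK
    {t : ℂ | SparseMinimalPolynomial s t}
    fun D => Pool.Agent.V1138.SP.finite_badS D s hM α hinj hα

end Pool.Agent.Results.MP_c95b3b_ag.SparseMembers
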