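import Pool.Agent.V1138.FZ.Ex
import Pool.Agent.Y152.RP.Tor

/-!
# MP_c95b3b_ag: Zilber's conjecture for all but finitely many members of one-parameter families of
subvarieties of tori, with values of a rational function at roots of unity as parameters

**Families.** Let `A_1, …, A_m ⊂ ℤ^n` be arbitrary finite nonempty sets of exponents, `K ⊂ ℂ` a
field, and let `c_jβ ∈ K[t]` be nonzero polynomials, `β ∈ A_j`. For `t ∈ ℂ` let
`X_t ⊂ (ℂ^×)^n` be the algebraic set defined by the Laurent polynomials
`f_j = ∑_β c_jβ(t) x^β`, `j ≤ m` (`member`). Every one-parameter family of subvarieties of the torus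
is of this form.

**Tropicalization.** For a rational number `α` the tropicalization of the family at `t = α` is the set
`Trop_α` of the `w ∈ ℚ^n` such that for all `j` the minimum of the numbers
`ord_α (c_jβ) + β · w`, `β ∈ A_j`, is attained at least twice.

**Parameters.** Let `f = P / Q` be a rational function, where `P` and `Q` are coprime polynomials
with integral coefficients. The parameters are the values `t = f (ζ)` of `f` at the roots of unity
`ζ` of all orders (`IsTorsionValue`), for example the numbers `2 cos (2 π ρ)`, `ρ` rational
(`f = X + 1 / X`). These parameters are algebraic numbers of unbounded degree and of bounded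
height. A rational number `α` is called admissible if `f (x) ≠ α` for all complex numbers `x` of
absolute value `1`, and `f (x) = α` for at least one `x ≠ 0`. For example for `f = X + 1 / X` the
`α` with `|α| > 2` are admissible (theorems `cheb_value` and `cheb_admissible` in
`Pool.Agent.V1138.FZ.Ex`), and for `f = X` the `α` with `|α| ≠ 0, 1`.

**Theorem.** Let `α_1, …, α_M`, `M ≥ N`, be admissible rational numbers, and suppose that no linear
subspace of `ℚ^n` of dimension less than `r` meets `N` of the sets `Trop_{α_l}`. Then for all but
finitely many `t = f (ζ)` the set `X_t` has no atypical intersection with the torsion cosets, and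
more generally with the cosets `η H` of all algebraic subgroups `H` of the torus by all points `η` whose coordinates are units of
the integral closure of `ℤ[Γ]` in `ℂ`, where `Γ` is any given finite subset of `K` (`Γ = ∅`:
`η` has coordinates which are algebraic units): every irreducible subset of `X_t ∩ η H` has dimension
at most `dim H - r`. In particular (`H` the torus) all components of `X_t` have dimension at most
`n - r`, and `X_t` does not meet `η H` if `dim H < r`; so the set `U(Y)` of the problem is empty for
all components `Y` of `X_t` of dimension `n - r`.

The degree of `t` is unbounded. The general position condition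
holds for almost all systems of orders; for complete intersections
`m = r` see `Pool.Agent.Y152.RP.Tor.general_position`. The families, the condition and the criterion
are those of the starting files `TropicallyGenericFamilies` (transcendental parameters `t`, and for
`N + 2 d ≤ M` algebraic parameters of degree at most `d`) and `RadicalMembers` (numbers `t` with a
rational power, roots of unity).

**The arithmetic** (`Pool.Agent.V1138.FZ`). If `α = u / v` is admissible then for all roots of unity `ζ`
of large order the (homogenized) value at `α` of the minimal polynomial of `f (ζ)` has a prime factor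
larger than a given number `D`. The polynomial `h = u Q - v P` has no zeros on the unit circle, and
after division by its content its Mahler measure `μ` is larger than `1` (Kronecker). The resultant
of `h` and the `n`-th cyclotomic polynomial `Φ_n` has at least the size `μ ^ φ(n)` up to a constant.
Its part at the primes `p ≤ D` is bounded: if `Φ_n (β)`, `β` a zero of `h`, is divisible at a place
above `p` by more than `p` then `n` is the order of `β` modulo this divisor.
-/

set_option autoImplicit false

namespace Pool.Agent.Results.MP_c95b3b_ag.TorsionValues

open Pool.Agent.Y152.RP.Tor (member order Trop InGeneralPosition NoAtypical)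

/-- `t` is the value of `P / Q` at a root of unity. -/
def IsTorsionValue (P Q : Polynomial ℤ) (t : ℂ) : Prop :=
  ∃ ζ : ℂ, (∃ n : ℕ, 0 < n ∧ ζ ^ n = 1) ∧ Polynomial.aeval ζ Q ≠ 0 ∧
    t = Polynomial.aeval ζ P / Polynomial.aeval ζ Q

/-- `P` and `Q` have no common factor over the rational numbers. -/
def NoCommonFactor (P Q : Polynomial ℤ) : Prop :=
  IsCoprime (P.map (Int.castRingHom ℚ)) (Q.map (Int.castRingHom ℚ))

/-- `P / Q` does not take the value `α` on the unit circle, and takes it at a nonzero number. -/
def Admissible (P Q : Polynomial ℤ) (α : ℚ) : Prop :=
  (∀ x : ℂ, ‖x‖ = 1 → Polynomial.aeval x P ≠ (α : ℂ) * Polynomial.aeval x Q) ∧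
    ∃ x : ℂ, x ≠ 0 ∧ Polynomial.aeval x P = (α : ℂ) * Polynomial.aeval x Q

/-- One-parameter families of subvarieties of the torus whose tropicalizations at sufficiently many
admissible rational parameters are in general position: only finitely many of the members with
parameters `P (ζ) / Q (ζ)` have an atypical intersection. -/
theorem result {n m M : ℕ} {K : Subfield ℂ} (r N : ℕ) (A : Fin m → Finset (Fin n → ℤ))
    (hA : ∀ j, (A j).Nonempty) (c : Fin m → (Fin n → ℤ) → Polynomial K)
    (hc : ∀ j, ∀ β ∈ A j, c j β ≠ 0) (α : Fin M → ℚ)
    (hgen : InGeneralPosition r N fun l => Trop A (order c (α l)))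
    (Γ : Set ℂ) (hΓ : Γ.Finite) (hΓK : Γ ⊆ K) (hM : N ≤ M)
    (P Q : Polynomial ℤ) (hPQ : NoCommonFactor P Q) (hα : ∀ l, Admissible P Q (α l)) :
    {t : ℂ | IsTorsionValue P Q t ∧ ¬ NoAtypical r Γ (member A c t)}.Finite :=
  Pool.Agent.Y152.RP.Tor.family r N A hA c hc α hgen Γ hΓ hΓK
    {t : ℂ | IsTorsionValue P Q t}
    fun D => Pool.Agent.V1138.FZ.finite_badF D hM α P Q hPQ
      (fun l => (hα l).1) fun l => (hα l).2

end Pool.Agent.Results.MP_c95b3b_ag.TorsionValues
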